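import Pool.Agent.Helper16.SD.GoalsE

/-!
# Project SD (MP_fc6b1e_nt), packet B_COR1: the function `ϑ`.
-/

set_option autoImplicit false

namespace Pool.Agent.Helper13.SD.B_COR1

open NumberField Module IsDedekindDomain TensorProduct
open Pool.Agent.Helper51.SigLeo Pool.Agent.Helper51.RP Pool.Agent.Helper51.REC
open Pool.Agent.Helper38.FD (Chr CutsOut LeopoldtFor)
open Pool.Agent.Helper38.FW (InDec)
open Pool.Agent.Helper16.SD

/-- an extension of an embedding -/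
theorem ext_emb (p : ℕ) [Fact p.Prime] (E L : Type) [Field E] [Field L] [Algebra E L]
    [Algebra.IsAlgebraic E L] (τ : E →+* ℂ_[p]) :
    ∃ τ' : L →+* ℂ_[p], τ'.comp (algebraMap E L) = τ := by
  let _ : Algebra E ℂ_[p] := τ.toAlgebra
  exact ⟨((IsAlgClosed.lift : L →ₐ[E] ℂ_[p]) : L →+* ℂ_[p]), AlgHom.comp_algebraMap _⟩

theorem primeOf_unique {p : ℕ} [Fact p.Prime] {F : Type} [Field F] [NumberField F]
    {τ : F →+* ℂ_[p]} {W W' : HeightOneSpectrum (𝓞 F)} (h : PrimeOf τ W) (h' : PrimeOf τ W') :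
    W = W' := by
  apply HeightOneSpectrum.ext
  ext x
  rw [h x, h' x]

theorem t : Pool.Agent.Helper16.SD.B_COR1 := by
  intro hLIFT hEXT hRAM hCNG hKUM p _ hp2 K _ _ _ F R _ _ _ _ hFR ε hε B hB k hk φ hadd hR hunit
    hdiv hdec
  obtain ⟨L, iL, iN, iA, v, hv, hgal, hfin, hcyc, hvR, hcut⟩ := hEXT p K F R hFR k φ hadd hR hunit
  obtain ⟨-, hc2, hc3⟩ := hCNG p F
  have hcutF : ∀ g : AlgebraicClosure K ≃ₐ[K] AlgebraicClosure K, (∀ x ∈ F, g x = x) → φ g = 0 →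
      ∀ x : L, g (v x) = v x := fun g hg hφ => (hcut g).2 ⟨hg, hφ⟩
  have hram := hRAM p K F R hFR hdiv L v hv hvR B
    (fun τ hτ g hg hin => hcutF g hg (hdec τ hτ g hg hin))
  have htc : IsTotallyComplex F := NumberField.isTotallyComplex_of_algebra K F
  have hSne : {W : HeightOneSpectrum (𝓞 F) |
      ∃ τ ∈ (above B : Set (F →+* ℂ_[p])), PrimeOf τ W}.Nonempty := by
    obtain ⟨τ₀, hτ₀⟩ := hB
    obtain ⟨τ, hτ⟩ := ext_emb p K F τ₀
    obtain ⟨W, hW, -⟩ := hc3 τ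
    exact ⟨W, τ, by show τ.comp (algebraMap K F) ∈ B; rw [hτ]; exact hτ₀, hW⟩
  have hSp : ∀ W ∈ {W : HeightOneSpectrum (𝓞 F) |
      ∃ τ ∈ (above B : Set (F →+* ℂ_[p])), PrimeOf τ W}, W.valuation F (p : F) < 1 := by
    rintro W ⟨τ, -, hτ⟩
    obtain ⟨W', hW', hlt⟩ := hc3 τ
    rw [primeOf_unique hτ hW']
    exact hlt
  obtain ⟨N, ϑ, x, Z, hZ, hx, hy, hcong, hϑ⟩ := hLIFT p hp2 F L ε hε htc k hk hfin hcyc
    {W : HeightOneSpectrum (𝓞 F) | ∃ τ ∈ (above B : Set (F →+* ℂ_[p])), PrimeOf τ W} hSne hSp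
    (fun W hW w hw x => hram W (fun τ hτ hP => hW ⟨τ, hτ, hP⟩) w hw x)
  obtain ⟨c, hc, hkum⟩ := hKUM p K F ε hε k hk φ hadd hunit L v hv hcutF x hx hy
  exact ⟨N, ϑ, x, Z, c, hZ, hc, fun u hu => hcong u ((hc2 _ N u).2 hu), hϑ, hkum⟩

end Pool.Agent.Helper13.SD.B_COR1
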