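import Pool.Agent.Helper16.SD.GoalsJ
import Pool.Agent.Helper6.REC.Core

/-!
# Project SD (MP_fc6b1e_nt), packet J_DV1: rules for `dsum`.
-/

set_option autoImplicit false

namespace Pool.Agent.Helper13.SD.J_DV1

open NumberField Module IsDedekindDomain
open Pool.Agent.Helper51.RP Pool.Agent.Helper51.REC Pool.Agent.Helper42.PP Pool.Agent.Helper42.RD
open Pool.Agent.Helper16.SD Pool.Agent.Helper6.REC

variable {F : Type} [Field F] [NumberField F] {R : Type} [CommRing R]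

theorem fin_supp (ϑ : HeightOneSpectrum (𝓞 F) → R) (x : Fˣ) :
    (Function.support fun W : HeightOneSpectrum (𝓞 F) =>
      ((ordv W (x : F) : ℤ) : R) * ϑ W).Finite := by
  refine (ordv_fin x).subset fun W hW h => hW ?_
  show ((ordv W (x : F) : ℤ) : R) * ϑ W = 0
  rw [h, Int.cast_zero, zero_mul]

theorem dsum_mul (ϑ : HeightOneSpectrum (𝓞 F) → R) (x y : Fˣ) :
    dsum ϑ ((x * y : Fˣ) : F) = dsum ϑ (x : F) + dsum ϑ (y : F) := by
  unfold dsum
  rw [← finsum_add_distrib (fin_supp ϑ x) (fin_supp ϑ y)]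
  refine finsum_congr fun W => ?_
  rw [ordv_mulU, Int.cast_add, add_mul]

theorem dsum_zpow (ϑ : HeightOneSpectrum (𝓞 F) → R) (x : Fˣ) (n : ℤ) :
    dsum ϑ ((x ^ n : Fˣ) : F) = (n : R) * dsum ϑ (x : F) := by
  unfold dsum
  rw [mul_finsum' _ _ (fin_supp ϑ x)]
  refine finsum_congr fun W => ?_
  rw [ordv_zpowU, Int.cast_mul, mul_assoc]

theorem dsum_one (ϑ : HeightOneSpectrum (𝓞 F) → R) : dsum ϑ ((1 : Fˣ) : F) = 0 := by
  have h := dsum_zpow ϑ (1 : Fˣ) 0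
  rwa [zpow_zero, Int.cast_zero, zero_mul] at h

theorem dsum_prod (ϑ : HeightOneSpectrum (𝓞 F) → R) (ι : Type) (s : Finset ι) (x : ι → Fˣ) :
    dsum ϑ ((∏ i ∈ s, x i : Fˣ) : F) = ∑ i ∈ s, dsum ϑ (x i : F) := by
  classical
  induction s using Finset.induction_on with
  | empty => rw [Finset.prod_empty, Finset.sum_empty, dsum_one]
  | insert a s ha ih => rw [Finset.prod_insert ha, Finset.sum_insert ha, dsum_mul, ih]

theorem ordv_un (W : HeightOneSpectrum (𝓞 F)) (u : (𝓞 F)ˣ) : ordv W ((un u : Fˣ) : F) = 0 := by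
  have h1 : W.valuation F ((un u : Fˣ) : F) ≤ 1 := W.valuation_le_one (u : 𝓞 F)
  have h2 : W.valuation F ((un u⁻¹ : Fˣ) : F) ≤ 1 := W.valuation_le_one ((u⁻¹ : (𝓞 F)ˣ) : 𝓞 F)
  have h3 : W.valuation F ((un u : Fˣ) : F) * W.valuation F ((un u⁻¹ : Fˣ) : F) = 1 := by
    rw [← map_mul, ← Units.val_mul]
    have h4 : un u * un u⁻¹ = (1 : Fˣ) := by
      unfold un
      rw [← map_mul, mul_inv_cancel, map_one]
    rw [h4, Units.val_one, map_one]
  have h5 : W.valuation F ((un u : Fˣ) : F) = 1 := by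
    refine le_antisymm h1 ?_
    calc (1 : _) = W.valuation F ((un u : Fˣ) : F) * W.valuation F ((un u⁻¹ : Fˣ) : F) := h3.symm
      _ ≤ W.valuation F ((un u : Fˣ) : F) * 1 := mul_le_mul_right h2 _
      _ = W.valuation F ((un u : Fˣ) : F) := mul_one _
  rw [ordv_eq_zero_iff W (un u).ne_zero, h5]

theorem dsum_un (ϑ : HeightOneSpectrum (𝓞 F) → R) (u : (𝓞 F)ˣ) :
    dsum ϑ ((un u : Fˣ) : F) = 0 := by
  unfold dsum
  rw [← finsum_zero (α := HeightOneSpectrum (𝓞 F))]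
  refine finsum_congr fun W => ?_
  rw [ordv_un, Int.cast_zero, zero_mul]

theorem t : Pool.Agent.Helper16.SD.J_DV1 := fun _ _ _ _ _ ϑ =>
  ⟨dsum_mul ϑ, dsum_zpow ϑ, dsum_prod ϑ, dsum_un ϑ⟩

end Pool.Agent.Helper13.SD.J_DV1
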