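import Pool.Agent.Helper16.SD.GoalsS

/-!
# SD-ST_PIV (MP_fc6b1e_nt): pivots
-/

set_option autoImplicit false

namespace Pool.Agent.Helper13.SD.ST_PIV

open Module Pool.Agent.Helper16.SD

theorem finrank_le_of {E I : Type} [Field E] [Fintype I] (W : Submodule E (I → E))
    (P : Finset I) (h : ∀ v ∈ W, (∀ i ∈ P, v i = 0) → v = 0) : finrank E W ≤ P.card := by
  let f : W →ₗ[E] (P → E) :=
    { toFun := fun v i => (v : I → E) i
      map_add' := fun _ _ => rfl
      map_smul' := fun _ _ => rfl }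
  have hinj : Function.Injective f := by
    rw [injective_iff_map_eq_zero]
    intro v hv
    refine Subtype.ext (h v v.2 fun i hi => ?_)
    exact congrFun hv ⟨i, hi⟩
  have h1 := LinearMap.finrank_le_finrank_of_injective hinj
  rw [finrank_fintype_fun_eq_card, Fintype.card_coe] at h1
  exact h1

theorem le_finrank_of {E I : Type} [Field E] [Fintype I] (W : Submodule E (I → E))
    (P : Finset I) (h : ∀ p ∈ P, ∃ v ∈ W, v p ≠ 0 ∧ ∀ i ∈ P, i ≠ p → v i = 0) :
    P.card ≤ finrank E W := by
  have h' : ∀ p : P, ∃ v : W, (v : I → E) p ≠ 0 ∧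
      ∀ i : P, i ≠ p → (v : I → E) i = 0 := by
    intro p
    obtain ⟨v, hv, h1, h2⟩ := h p p.2
    exact ⟨⟨v, hv⟩, h1, fun i hi => h2 i i.2 fun h3 => hi (Subtype.ext h3)⟩
  choose v hv1 hv2 using h'
  have hli : LinearIndependent E v := by
    rw [Fintype.linearIndependent_iff]
    intro g hg p
    have h1 : (∑ i, g i • ((v i : W) : I → E)) (p : I) = 0 := by
      have h2 := congrArg (fun w : W => (w : I → E) p) hg
      simp only [Submodule.coe_sum, Submodule.coe_smul] at h2
      rw [h2]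
      rfl
    rw [Finset.sum_apply, Finset.sum_eq_single p] at h1
    · rw [Pi.smul_apply, smul_eq_mul] at h1
      exact (mul_eq_zero.1 h1).resolve_right (hv1 p)
    · intro b _ hb
      rw [Pi.smul_apply, hv2 b p hb.symm, smul_zero]
    · intro hp
      exact absurd (Finset.mem_univ p) hp
  have h3 := hli.fintype_card_le_finrank
  rw [Fintype.card_coe] at h3
  exact h3

theorem t : Pool.Agent.Helper16.SD.ST_PIV := by
  intro E I _ _ _ V
  classical
  have hex : ∃ n, ∃ P : Finset I, P.card = n ∧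
      ∀ v ∈ V, (∀ i ∈ P, v i = 0) → v = 0 :=
    ⟨_, Finset.univ, rfl, fun v _ hv => funext fun i => hv i (Finset.mem_univ i)⟩
  obtain ⟨P, hPn, hP⟩ := Nat.find_spec hex
  have hmin : ∀ Q : Finset I, (∀ v ∈ V, (∀ i ∈ Q, v i = 0) → v = 0) → P.card ≤ Q.card := by
    intro Q hQ
    rw [hPn]
    exact Nat.find_min' hex ⟨Q, rfl, hQ⟩
  refine ⟨P, le_antisymm ?_ (finrank_le_of V P hP), ?_⟩
  · refine le_finrank_of V P fun p hp => ?_
    by_contra hcon
    push Not at hcon
    have h1 := hmin (P.erase p) ?_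
    · have h2 := Finset.card_erase_lt_of_mem hp
      omega
    · intro v hv hv0
      by_cases hvp : v p = 0
      · refine hP v hv fun i hi => ?_
        by_cases hip : i = p
        · rw [hip]
          exact hvp
        · exact hv0 i (Finset.mem_erase.2 ⟨hip, hi⟩)
      · obtain ⟨i, hi, hip, hvi⟩ := hcon v hv hvp
        exact absurd (hv0 i (Finset.mem_erase.2 ⟨hip, hi⟩)) hvi
  · intro A
    refine finrank_le_of _ (A ∩ P) ?_
    intro v hv hv0
    refine hP v hv.1 fun i hi => ?_
    by_cases hiA : i ∈ A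
    · exact hv0 i (Finset.mem_inter.2 ⟨hiA, hi⟩)
    · exact hv.2 i hiA

end Pool.Agent.Helper13.SD.ST_PIV
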